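import Pool.Agent.W2helper22.CU.Stmts3

/-!
# The method of approximations for monotone programs
-/

set_option autoImplicit false

namespace Pool.Agent.W2helper59.CU

open Finset Pool.Agent.H540R2 Pool.Agent.W2helper86.KQ Pool.Agent.W2helper22.CU
  Pool.Agent.H520R2 Pool.Agent.H520R2.NM

/-- `B` approximates `f` with errors `FP`, `FQ` -/
def Apx {N : ℕ} {𝓛 P Q : Type} (xP : P → Fin N → Bool) (xQ : Q → Fin N → Bool)
    (accP : 𝓛 → P → Prop) (accQ : 𝓛 → Q → Prop) (f : (Fin N → Bool) → Bool) (B : 𝓛)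
    (FP : Set P) (FQ : Set Q) : Prop :=
  (∀ p, p ∉ FP → f (xP p) = true → accP B p) ∧ (∀ q, q ∉ FQ → accQ B q → f (xQ q) = true)

lemma ncard3 {P : Type} [Fintype P] {a T : ℝ} {E F G H : Set P} (hE : (E.ncard : ℝ) ≤ T)
    (hF : (F.ncard : ℝ) ≤ a) (hG : (G.ncard : ℝ) ≤ a) (hH : (H.ncard : ℝ) ≤ a) :
    ((E ∪ F ∪ G ∪ H).ncard : ℝ) ≤ T + 3 * a := by
  have h1 : ((E ∪ F ∪ G ∪ H).ncard : ℝ) ≤ ((E ∪ F ∪ G).ncard : ℝ) + H.ncard := by
    exact_mod_cast Set.ncard_union_le _ _
  have h2 : ((E ∪ F ∪ G).ncard : ℝ) ≤ ((E ∪ F).ncard : ℝ) + G.ncard := by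
    exact_mod_cast Set.ncard_union_le _ _
  have h3 : ((E ∪ F).ncard : ℝ) ≤ (E.ncard : ℝ) + F.ncard := by
    exact_mod_cast Set.ncard_union_le _ _
  linarith

theorem p_absm : P_ABSM := by
  intro N s g hg 𝓛 P Q _ _ xP xQ accP accQ a b ha hb hv ht hf hand hor
  -- one function
  have node : ∀ (EP : Set P) (EQ : Set Q) (L : List ((Fin N → Bool) → Bool)),
      (∀ f ∈ L, ∃ B, Apx xP xQ accP accQ f B EP EQ) → ∀ f, (f ∈ VB (Fin N) ∨ f ∈ L) →
      ∃ (B : 𝓛) (FP : Set P) (FQ : Set Q), (FP.ncard : ℝ) ≤ a ∧ (FQ.ncard : ℝ) ≤ b ∧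
        Apx xP xQ accP accQ f B (EP ∪ FP) (EQ ∪ FQ) := by
    intro EP EQ L hL f hfL
    rcases hfL with hfB | hfL
    · have hcase : (∃ i, f = fun x => x i) ∨ f = (fun _ => true) ∨ f = (fun _ => false) := by
        rcases hfB with ⟨c, hc⟩ | h
        · cases c with
          | true => exact Or.inr (Or.inl hc)
          | false => exact Or.inr (Or.inr hc)
        · exact Or.inl h
      rcases hcase with ⟨i, rfl⟩ | rfl | rfl
      · obtain ⟨B, h1, h2⟩ := hv i
        refine ⟨B, _, _, h1, h2, ?_, ?_⟩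
        · intro p hp he
          by_contra hc
          exact hp (Or.inr ⟨he, hc⟩)
        · intro q hq he
          by_contra hc
          exact hq (Or.inr ⟨he, by simpa using hc⟩)
      · obtain ⟨B, h1⟩ := ht
        exact ⟨B, ∅, ∅, by simpa using ha, by simpa using hb, fun p _ _ => h1 p,
          fun q _ _ => rfl⟩
      · obtain ⟨B, h1⟩ := hf
        refine ⟨B, ∅, _, by simpa using ha, h1, fun p _ he => ?_, fun q hq he => ?_⟩
        · simp at he
        · exact absurd he fun h => hq (Or.inr h)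
    · obtain ⟨B, h1, h2⟩ := hL f hfL
      exact ⟨B, ∅, ∅, by simpa using ha, by simpa using hb,
        fun p hp he => h1 p (fun h => hp (Or.inl h)) he,
        fun q hq he => h2 q (fun h => hq (Or.inl h)) he⟩
  have mono : ∀ (f : (Fin N → Bool) → Bool) (B : 𝓛) (EP EP' : Set P) (EQ EQ' : Set Q),
      EP ⊆ EP' → EQ ⊆ EQ' → Apx xP xQ accP accQ f B EP EQ → Apx xP xQ accP accQ f B EP' EQ' :=
    fun f B EP EP' EQ EQ' h1 h2 h => ⟨fun p hp => h.1 p fun h' => hp (h1 h'),
      fun q hq => h.2 q fun h' => hq (h2 h')⟩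
  have key : ∀ L : List ((Fin N → Bool) → Bool), MProg (VB (Fin N)) L →
      ∃ (EP : Set P) (EQ : Set Q), (EP.ncard : ℝ) ≤ 3 * L.length * a ∧
        (EQ.ncard : ℝ) ≤ 3 * L.length * b ∧ ∀ f ∈ L, ∃ B, Apx xP xQ accP accQ f B EP EQ := by
    intro L hL
    induction hL with
    | nil => exact ⟨∅, ∅, by simp, by simp, fun f hf => absurd hf (List.not_mem_nil)⟩
    | @and L f g _ hf hg ih =>
      obtain ⟨EP, EQ, hEP, hEQ, hA⟩ := ih
      obtain ⟨Bf, FP, FQ, f1, f2, f3⟩ := node EP EQ L hA f hf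
      obtain ⟨Bg, GP, GQ, g1, g2, g3⟩ := node EP EQ L hA g hg
      obtain ⟨D, d1, d2⟩ := hand Bf Bg
      refine ⟨_, _, (ncard3 hEP f1 g1 d1).trans ?_, (ncard3 hEQ f2 g2 d2).trans ?_, ?_⟩
      · rw [List.length_cons]; push_cast; linarith
      · rw [List.length_cons]; push_cast; linarith
      · intro h hh
        rcases List.mem_cons.1 hh with rfl | hh
        · refine ⟨D, fun p hp he => ?_, fun q hq he => ?_⟩
          · simp only [Set.mem_union, not_or] at hp
            obtain ⟨⟨⟨p1, p2⟩, p3⟩, p4⟩ := hp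
            simp only [Bool.and_eq_true] at he
            by_contra hc
            exact p4 ⟨⟨f3.1 p (by simp [p1, p2]) he.1, g3.1 p (by simp [p1, p3]) he.2⟩, hc⟩
          · simp only [Set.mem_union, not_or] at hq
            obtain ⟨⟨⟨p1, p2⟩, p3⟩, p4⟩ := hq
            have h5 : accQ Bf q ∧ accQ Bg q := by
              by_contra hc
              exact p4 ⟨he, hc⟩
            simp only [Bool.and_eq_true]
            exact ⟨f3.2 q (by simp [p1, p2]) h5.1, g3.2 q (by simp [p1, p3]) h5.2⟩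
        · obtain ⟨B, hB⟩ := hA h hh
          exact ⟨B, mono h B _ _ _ _ (fun x hx => Or.inl (Or.inl (Or.inl hx)))
            (fun x hx => Or.inl (Or.inl (Or.inl hx))) hB⟩
    | @or L f g _ hf hg ih =>
      obtain ⟨EP, EQ, hEP, hEQ, hA⟩ := ih
      obtain ⟨Bf, FP, FQ, f1, f2, f3⟩ := node EP EQ L hA f hf
      obtain ⟨Bg, GP, GQ, g1, g2, g3⟩ := node EP EQ L hA g hg
      obtain ⟨D, d1, d2⟩ := hor Bf Bg
      refine ⟨_, _, (ncard3 hEP f1 g1 d1).trans ?_, (ncard3 hEQ f2 g2 d2).trans ?_, ?_⟩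
      · rw [List.length_cons]; push_cast; linarith
      · rw [List.length_cons]; push_cast; linarith
      · intro h hh
        rcases List.mem_cons.1 hh with rfl | hh
        · refine ⟨D, fun p hp he => ?_, fun q hq he => ?_⟩
          · simp only [Set.mem_union, not_or] at hp
            obtain ⟨⟨⟨p1, p2⟩, p3⟩, p4⟩ := hp
            simp only [Bool.or_eq_true] at he
            by_contra hc
            exact p4 ⟨he.imp (f3.1 p (by simp [p1, p2])) (g3.1 p (by simp [p1, p3])), hc⟩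
          · simp only [Set.mem_union, not_or] at hq
            obtain ⟨⟨⟨p1, p2⟩, p3⟩, p4⟩ := hq
            have h5 : accQ Bf q ∨ accQ Bg q := by
              by_contra hc
              exact p4 ⟨he, not_or.1 hc⟩
            simp only [Bool.or_eq_true]
            exact h5.imp (f3.2 q (by simp [p1, p2])) (g3.2 q (by simp [p1, p3]))
        · obtain ⟨B, hB⟩ := hA h hh
          exact ⟨B, mono h B _ _ _ _ (fun x hx => Or.inl (Or.inl (Or.inl hx)))
            (fun x hx => Or.inl (Or.inl (Or.inl hx))) hB⟩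
  obtain ⟨L, hL, hs, hgL⟩ := hg
  obtain ⟨EP, EQ, hEP, hEQ, hA⟩ := key L hL
  obtain ⟨B, FP, FQ, f1, f2, f3⟩ := node EP EQ L hA g hgL
  have hs' : (L.length : ℝ) ≤ s := by exact_mod_cast hs
  refine ⟨B, ?_, ?_⟩
  · have h1 : {p | g (xP p) = true ∧ ¬ accP B p} ⊆ EP ∪ FP := by
      intro p hp
      by_contra hc
      exact hp.2 (f3.1 p hc hp.1)
    have h2 : ({p | g (xP p) = true ∧ ¬ accP B p}.ncard : ℝ) ≤ (EP.ncard : ℝ) + FP.ncard := by
      exact_mod_cast (Set.ncard_le_ncard h1 (Set.toFinite _)).trans (Set.ncard_union_le _ _)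
    have h3 := mul_le_mul_of_nonneg_right hs' ha
    linarith
  · have h1 : {q | accQ B q ∧ g (xQ q) = false} ⊆ EQ ∪ FQ := by
      intro q hq
      by_contra hc
      have h3 : g (xQ q) = true := f3.2 q hc hq.1
      rw [hq.2] at h3
      exact Bool.false_ne_true h3
    have h2 : ({q | accQ B q ∧ g (xQ q) = false}.ncard : ℝ) ≤ (EQ.ncard : ℝ) + FQ.ncard := by
      exact_mod_cast (Set.ncard_le_ncard h1 (Set.toFinite _)).trans (Set.ncard_union_le _ _)
    have h3 := mul_le_mul_of_nonneg_right hs' hb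
    linarith

end Pool.Agent.W2helper59.CU
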