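import Pool.Agent.W2helper22.CU.Stmts

/-! # Project CU, piece COVER -/

set_option autoImplicit false

namespace Pool.Agent.W2helper59.CU

open Pool.Agent.W2helper22.CU

section

variable {ι : Type} [Fintype ι] [DecidableEq ι] {n N : ℕ} (B : ι → Finset (Fin N))

/-- the shifted embedding -/
noncomputable def psi (s : (i : ι) → Fin (B i).card) (i : ι) (v : Fin n) : Fin N :=
  ((B i).equivFin.symm ⟨(v.1 + (s i).1) % (B i).card,
    Nat.mod_lt _ (lt_of_le_of_lt (Nat.zero_le _) (s i).2)⟩ : B i)

omit [Fintype ι] [DecidableEq ι] in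
theorem psi_mem (s : (i : ι) → Fin (B i).card) (i : ι) (v : Fin n) : psi B s i v ∈ B i := by
  unfold psi
  exact Finset.coe_mem _

theorem mod_inj {a b c m : ℕ} (ha : a < m) (hb : b < m) (h : (a + c) % m = (b + c) % m) : a = b := by
  have h1 : a + c ≡ b + c [MOD m] := h
  exact Nat.ModEq.eq_of_lt_of_lt (Nat.ModEq.add_right_cancel' c h1) ha hb

omit [Fintype ι] [DecidableEq ι] in
theorem psi_inj (hB : ∀ i, n ≤ (B i).card) (s : (i : ι) → Fin (B i).card) (i : ι) :
    Function.Injective (psi (n := n) B s i) := by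
  intro v v' h
  unfold psi at h
  have h1 := (B i).equivFin.symm.injective (Subtype.ext h)
  rw [Fin.mk.injEq] at h1
  exact Fin.ext (mod_inj (lt_of_lt_of_le v.2 (hB i)) (lt_of_lt_of_le v'.2 (hB i)) h1)

/-- the tuple of images -/
noncomputable def Psi (u : ι → Fin n) (s : (i : ι) → Fin (B i).card) : ι → Fin N :=
  fun i => psi B s i (u i)

omit [Fintype ι] [DecidableEq ι] in
theorem Psi_inj (u : ι → Fin n) : Function.Injective (Psi B u) := by
  intro s s' h
  funext i
  have h1 : psi B s i (u i) = psi B s' i (u i) := congrFun h i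
  unfold psi at h1
  have h2 := (B i).equivFin.symm.injective (Subtype.ext h1)
  rw [Fin.mk.injEq, add_comm, add_comm (u i).1] at h2
  exact Fin.ext (mod_inj (s i).2 (s' i).2 h2)

theorem Psi_count (u : ι → Fin n) {T : Finset (ι → Fin N)} (hT : T ⊆ Fintype.piFinset B) :
    (Finset.univ.filter (fun s => Psi B u s ∈ T)).card = T.card := by
  have himg : Finset.univ.image (Psi B u) = Fintype.piFinset B := by
    apply Finset.eq_of_subset_of_card_le
    · intro y hy
      obtain ⟨s, -, rfl⟩ := Finset.mem_image.mp hy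
      rw [Fintype.mem_piFinset]
      intro i
      exact psi_mem B s i (u i)
    · rw [Finset.card_image_of_injective _ (Psi_inj B u), Finset.card_univ, Fintype.card_pi,
        Fintype.card_piFinset]
      simp
  rw [← Finset.card_image_of_injective _ (Psi_inj B u)]
  congr 1
  ext t
  constructor
  · intro ht
    obtain ⟨s, hs, rfl⟩ := Finset.mem_image.mp ht
    exact (Finset.mem_filter.mp hs).2
  · intro ht
    have h1 := hT ht
    rw [← himg] at h1
    obtain ⟨s, hs, rfl⟩ := Finset.mem_image.mp h1
    exact Finset.mem_image.mpr ⟨s, Finset.mem_filter.mpr ⟨hs, ht⟩, rfl⟩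

theorem step (hB : ∀ i, n ≤ (B i).card) (hpos : ∀ i, 0 < (B i).card) {T : Finset (ι → Fin N)}
    (hT : T ⊆ Fintype.piFinset B) {τ : ℝ} (hτT : τ * ∏ i, ((B i).card : ℝ) ≤ T.card)
    (U : Finset (ι → Fin n)) :
    ∃ ψ : ι → Fin n → Fin N, (∀ i, Function.Injective (ψ i)) ∧ (∀ i u, ψ i u ∈ B i) ∧
      τ * U.card ≤ ((U.filter (fun u => (fun i => ψ i (u i)) ∈ T)).card : ℝ) := by
  have : ∀ i, NeZero (B i).card := fun i => ⟨(hpos i).ne'⟩
  have hne : (Finset.univ : Finset ((i : ι) → Fin (B i).card)).Nonempty :=
    ⟨fun i => ⟨0, hpos i⟩, Finset.mem_univ _⟩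
  have hsum : ∑ s : (i : ι) → Fin (B i).card, (τ * U.card) ≤
      ∑ s : (i : ι) → Fin (B i).card,
        ((U.filter (fun u => Psi B u s ∈ T)).card : ℝ) := by
    rw [Finset.sum_const, Finset.card_univ, Fintype.card_pi, nsmul_eq_mul]
    have h1 : ∑ s : (i : ι) → Fin (B i).card, ((U.filter (fun u => Psi B u s ∈ T)).card : ℝ) =
        (U.card : ℝ) * T.card := by
      have h2 : ∑ s : (i : ι) → Fin (B i).card, (U.filter (fun u => Psi B u s ∈ T)).card =
          ∑ u ∈ U, (Finset.univ.filter (fun s => Psi B u s ∈ T)).card := by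
        simp only [Finset.card_filter]
        exact Finset.sum_comm
      have h3 : ∑ u ∈ U, (Finset.univ.filter (fun s => Psi B u s ∈ T)).card = U.card * T.card := by
        rw [Finset.sum_congr rfl (fun u _ => Psi_count B u hT), Finset.sum_const, smul_eq_mul]
      rw [h3] at h2
      exact_mod_cast h2
    rw [h1]
    have h4 := mul_le_mul_of_nonneg_right hτT (Nat.cast_nonneg (α := ℝ) U.card)
    simp only [Fintype.card_fin]
    push_cast
    linarith
  obtain ⟨s, -, hs⟩ := Finset.exists_le_of_sum_le hne hsum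
  exact ⟨psi B s, psi_inj B hB s, psi_mem B s, hs⟩

end

theorem p_cover : P_COVER := by
  intro ι _ _ n N B hB T hT τ hτ hτT m hm
  by_cases hpos : ∀ i, 0 < (B i).card
  · have key : ∀ m : ℕ, ∃ φ : Fin m → ι → Fin n → Fin N, (∀ r i, Function.Injective (φ r i)) ∧
        (∀ r i u, φ r i u ∈ B i) ∧
        ((Finset.univ.filter (fun u : ι → Fin n =>
          ¬ ∃ r, (fun i => φ r i (u i)) ∈ T)).card : ℝ) ≤
          (n : ℝ) ^ Fintype.card ι * Real.exp (-(τ * m)) := by
      intro m
      induction m with
      | zero =>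
        refine ⟨fun r => r.elim0, fun r => r.elim0, fun r => r.elim0, ?_⟩
        have h1 := Finset.card_filter_le (Finset.univ : Finset (ι → Fin n))
          (fun u => ¬ ∃ r : Fin 0, (fun i => (r.elim0 : ι → Fin n → Fin N) i (u i)) ∈ T)
        rw [Finset.card_univ, Fintype.card_fun, Fintype.card_fin] at h1
        simp only [Nat.cast_zero, mul_zero, neg_zero, Real.exp_zero, mul_one]
        exact_mod_cast h1
      | succ m ih =>
        obtain ⟨φ, h1, h2, h3⟩ := ih
        set U := Finset.univ.filter (fun u : ι → Fin n => ¬ ∃ r, (fun i => φ r i (u i)) ∈ T) with hU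
        obtain ⟨ψ, g1, g2, g3⟩ := step B hB hpos hT hτT U
        refine ⟨Fin.cons ψ φ, ?_, ?_, ?_⟩
        · intro r
          refine Fin.cases ?_ ?_ r
          · simpa using g1
          · intro r'
            simpa using h1 r'
        · intro r
          refine Fin.cases ?_ ?_ r
          · simpa using g2
          · intro r'
            simpa using h2 r'
        · have hsub : (Finset.univ.filter (fun u : ι → Fin n =>
              ¬ ∃ r, (fun i => (Fin.cons ψ φ : Fin (m + 1) → ι → Fin n → Fin N) r i (u i)) ∈ T)) ⊆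
              U \ U.filter (fun u => (fun i => ψ i (u i)) ∈ T) := by
            intro u hu
            rw [Finset.mem_filter] at hu
            have hu2 := hu.2
            rw [Fin.exists_fin_succ] at hu2
            simp only [Fin.cons_zero, Fin.cons_succ, not_or] at hu2
            rw [Finset.mem_sdiff, Finset.mem_filter, hU, Finset.mem_filter]
            exact ⟨⟨Finset.mem_univ _, hu2.2⟩, fun h => hu2.1 h.2⟩
          have hc := Finset.card_le_card hsub
          rw [Finset.card_sdiff_of_subset (Finset.filter_subset _ _)] at hc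
          have hle := Finset.card_filter_le U (fun u => (fun i => ψ i (u i)) ∈ T)
          have hc' : ((Finset.univ.filter (fun u : ι → Fin n =>
              ¬ ∃ r, (fun i => (Fin.cons ψ φ : Fin (m + 1) → ι → Fin n → Fin N) r i (u i)) ∈ T)).card
                : ℝ) ≤ U.card - (U.filter (fun u => (fun i => ψ i (u i)) ∈ T)).card := by
            rw [← Nat.cast_sub hle]
            exact_mod_cast hc
          have h4 : (1 - τ) * (U.card : ℝ) ≤ Real.exp (-τ) * U.card :=
            mul_le_mul_of_nonneg_right (Real.one_sub_le_exp_neg τ) (Nat.cast_nonneg _)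
          have h5 := mul_le_mul_of_nonneg_left h3 (Real.exp_pos (-τ)).le
          have h6 : Real.exp (-τ) * ((n : ℝ) ^ Fintype.card ι * Real.exp (-(τ * m))) =
              (n : ℝ) ^ Fintype.card ι * Real.exp (-(τ * ((m + 1 : ℕ) : ℝ))) := by
            have : -(τ * ((m + 1 : ℕ) : ℝ)) = -τ + -(τ * m) := by
              push_cast
              ring
            rw [this, Real.exp_add]
            ring
          linarith
    obtain ⟨φ, h1, h2, h3⟩ := key m
    refine ⟨φ, h1, h2, ?_⟩
    have h4 := h3.trans_lt hm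
    have h5 : (Finset.univ.filter (fun u : ι → Fin n =>
          ¬ ∃ r, (fun i => φ r i (u i)) ∈ T)).card = 0 := by
      have : (Finset.univ.filter (fun u : ι → Fin n =>
          ¬ ∃ r, (fun i => φ r i (u i)) ∈ T)).card < 1 := by exact_mod_cast h4
      omega
    intro u
    by_contra hcon
    rw [Finset.card_eq_zero, Finset.filter_eq_empty_iff] at h5
    exact h5 (Finset.mem_univ u) hcon
  · push Not at hpos
    obtain ⟨i, hi⟩ := hpos
    have hn : n = 0 := by
      have := hB i
      omega
    subst hn
    exact ⟨fun r i v => v.elim0, fun r i v => v.elim0, fun r i v => v.elim0, fun u => (u i).elim0⟩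

end Pool.Agent.W2helper59.CU
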