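import Pool.Agent.W2helper22.CU.Stmts

/-! # Project CU, piece TRANSFER -/

set_option autoImplicit false

namespace Pool.Agent.W2helper59.CU

open Filter Pool.Agent.H540R2 Pool.Agent.W2helper86.KQ Pool.Agent.W2helper22.CU

theorem p_transfer : P_CORE → P_HOST → P_COVER → P_SUBST → P_ORS → P_TRANSFER := by
  classical
  intro hcore hhost hcover hsubst hors c ε hc0 hc1 hε0 hε1 K k hk hK
  have hk0 : (1 : ℝ) ≤ k := by exact_mod_cast hk
  have hεk : 0 < ε * k := by positivity
  have hK2 : 2 ≤ K := by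
    by_contra hcon
    have hK1 : (K : ℝ) ≤ 1 := by
      have : K ≤ 1 := by omega
      exact_mod_cast this
    have h1 : ε * c ^ 2 * K ≤ 1 := by
      have h2 : c ^ 2 ≤ 1 := pow_le_one₀ hc0.le hc1
      have h3 : ε * c ^ 2 ≤ 1 := by nlinarith [sq_nonneg c]
      have h4 : 0 ≤ ε * c ^ 2 := by positivity
      have h5 : (0 : ℝ) ≤ K := Nat.cast_nonneg K
      nlinarith
    linarith
  have ev1 := hcore c ε hc0 hc1 hε0 hε1 K k hk hK
  have ev2 : ∀ᶠ x : ℝ in atTop, (k * Real.log x + 1) * x ^ (3 * ε * k) + 2 ≤ x ^ (4 * ε * k) := by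
    have h1 := (isLittleO_log_rpow_atTop (show 0 < ε * k / 2 by linarith)).bound
      (show (0 : ℝ) < 1 by norm_num)
    have h2 := (tendsto_rpow_atTop (show 0 < ε * k / 2 by linarith)).eventually_ge_atTop
      ((k : ℝ) + 3)
    filter_upwards [h1, h2, eventually_ge_atTop 1] with x hx1 hx2 hx0
    have hx00 : 0 < x := by linarith
    have hl : 0 ≤ Real.log x := Real.log_nonneg hx0
    rw [Real.norm_of_nonneg hl, Real.norm_of_nonneg (by positivity), one_mul] at hx1
    set y := x ^ (ε * k / 2) with hy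
    have hy2 : x ^ (ε * k) = y * y := by
      rw [hy, ← Real.rpow_add hx00]
      congr 1
      ring
    have h4 : x ^ (4 * ε * k) = (y * y) * x ^ (3 * ε * k) := by
      rw [← hy2, ← Real.rpow_add hx00]
      congr 1
      ring
    have hz : 1 ≤ x ^ (3 * ε * k) := Real.one_le_rpow hx0 (by positivity)
    rw [h4]
    have hy1 : 1 ≤ y := by linarith
    have h5 : k * Real.log x + 3 ≤ y * y := by
      have : k * Real.log x ≤ k * y := mul_le_mul_of_nonneg_left hx1 (by linarith)
      nlinarith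
    nlinarith
  have ev3 := tendsto_natCast_atTop_atTop.eventually ev2
  filter_upwards [ev1, ev3, eventually_ge_atTop 2] with N hN1 hN2 hN3
  intro H hH n hn hnN C hC
  have hN0 : (0 : ℝ) < N := by
    have : (2 : ℝ) ≤ N := by exact_mod_cast hN3
    linarith
  have hN1' : (1 : ℝ) ≤ N := by
    have : (2 : ℝ) ≤ N := by exact_mod_cast hN3
    linarith
  have hn0 : (0 : ℝ) < n := by
    have : (2 : ℝ) ≤ n := by exact_mod_cast hn
    linarith
  obtain ⟨κ, S, hS1, hS2⟩ := hhost K N H (by omega)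
  have hS1' : (N : ℝ) ^ (c * K) ≤ (K : ℝ) ^ K * S.card := by
    refine hH.trans ?_
    exact_mod_cast hS1
  obtain ⟨J, W, a, B, hJW, hWk, hB1, hB2, hB3⟩ := hN1 S hS1'
  have hBn : ∀ i, n ≤ (B i).card := by
    intro i
    have := hnN.trans (hB1 i)
    exact_mod_cast this
  set T := (Fintype.piFinset B).filter (fun y => ∃ z ∈ S, (∀ i ∈ J, z i = a i) ∧
        ∀ i : W, z i = y i) with hT
  set τ : ℝ := (N : ℝ) ^ (-(3 * ε * k)) with hτ
  have hτ0 : 0 < τ := by positivity
  set m : ℕ := ⌈(k * Real.log n + 1) * (N : ℝ) ^ (3 * ε * k)⌉₊ with hm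
  have hlogn : 0 ≤ Real.log n := Real.log_natCast_nonneg n
  have hτm : k * Real.log n + 1 ≤ τ * m := by
    have h1 : (k * Real.log n + 1) * (N : ℝ) ^ (3 * ε * k) ≤ m := Nat.le_ceil _
    have h2 := mul_le_mul_of_nonneg_left h1 hτ0.le
    have h3 : τ * ((k * Real.log n + 1) * (N : ℝ) ^ (3 * ε * k)) = k * Real.log n + 1 := by
      rw [hτ, Real.rpow_neg hN0.le]
      have : (N : ℝ) ^ (3 * ε * k) ≠ 0 := by positivity
      field_simp
    rwa [h3] at h2
  have hexp : (n : ℝ) ^ Fintype.card W * Real.exp (-(τ * m)) < 1 := by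
    rw [Fintype.card_coe, hWk]
    have h1 : Real.exp (-(τ * m)) ≤ Real.exp (-(k * Real.log n + 1)) :=
      Real.exp_le_exp.mpr (by linarith)
    have h2 : (n : ℝ) ^ k = Real.exp (k * Real.log n) := by
      rw [mul_comm, Real.exp_mul, Real.exp_log hn0, Real.rpow_natCast]
    rw [h2]
    calc Real.exp (k * Real.log n) * Real.exp (-(τ * m))
        ≤ Real.exp (k * Real.log n) * Real.exp (-(k * Real.log n + 1)) :=
          mul_le_mul_of_nonneg_left h1 (Real.exp_pos _).le
      _ = Real.exp (-1) := by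
          rw [← Real.exp_add]
          congr 1
          ring
      _ < 1 := by
          rw [Real.exp_lt_one_iff]
          norm_num
  obtain ⟨φ, hφ1, hφ2, hφ3⟩ := hcover W n N B hBn T (Finset.filter_subset _ _) τ hτ0 hB3 m hexp
  have hφκ : ∀ r (i : W) u, κ (φ r i u) = i := by
    intro r i u
    obtain ⟨z, hz, hzi⟩ := hB2 i _ (hφ2 r i u)
    rw [← hzi]
    exact (hS2 z hz).1 i
  have hex : ∀ r, ∃ σ : Fin (N.choose 2) → Fin (n.choose 2) ⊕ Bool,
      ∀ x : Fin (n.choose 2) → Bool,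
      graph (sub σ x) ≤ H ∧
      (¬ (graph (sub σ x)).CliqueFree K → ¬ (graph x).CliqueFree k) ∧
      ∀ u : W → Fin n, (∀ i j, i ≠ j → (graph x).Adj (u i) (u j)) →
        (∃ z : Fin K → Fin N, (∀ i, κ (z i) = i) ∧ (∀ i j, i ≠ j → H.Adj (z i) (z j)) ∧
          (∀ i ∈ J, z i = a i) ∧ ∀ i : W, z i = φ r i (u i)) →
        ¬ (graph (sub σ x)).CliqueFree K := by
    intro r
    exact hsubst K N n k H κ J W a (φ r) hK2 hJW hWk (hφ1 r) (hφκ r)
  choose σ hσ using hex
  obtain ⟨C', hC1, hC2, hC3⟩ := hors (N.choose 2) (n.choose 2) m C σ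
  refine ⟨C', ?_, ?_, ?_⟩
  · have h1 : (C'.size : ℝ) ≤ m * (C.size + 1) + 1 := by exact_mod_cast hC1
    have h2 : (m : ℝ) + 1 ≤ (N : ℝ) ^ (4 * ε * k) := by
      have h3 : (m : ℝ) < (k * Real.log n + 1) * (N : ℝ) ^ (3 * ε * k) + 1 :=
        Nat.ceil_lt_add_one (by positivity)
      have h4 : Real.log n ≤ Real.log N := by
        apply Real.log_le_log hn0
        refine hnN.trans ?_
        calc (N : ℝ) ^ (c / 16) ≤ (N : ℝ) ^ (1 : ℝ) :=
              Real.rpow_le_rpow_of_exponent_le hN1' (by linarith)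
          _ = N := Real.rpow_one _
      have h5 : (k * Real.log n + 1) * (N : ℝ) ^ (3 * ε * k) ≤
          (k * Real.log N + 1) * (N : ℝ) ^ (3 * ε * k) := by
        apply mul_le_mul_of_nonneg_right _ (by positivity)
        have := mul_le_mul_of_nonneg_left h4 (show (0 : ℝ) ≤ k by linarith)
        linarith
      linarith
    have h6 : (0 : ℝ) ≤ C.size := Nat.cast_nonneg _
    calc (C'.size : ℝ) ≤ m * (C.size + 1) + 1 := h1
      _ ≤ (m + 1) * (C.size + 1) := by nlinarith
      _ ≤ (N : ℝ) ^ (4 * ε * k) * (C.size + 1) := mul_le_mul_of_nonneg_right h2 (by linarith)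
  · intro h
    rw [h, Nat.mul_zero] at hC2
    omega
  · intro x _
    rw [hC3]
    constructor
    · rintro ⟨r, hr⟩
      exact (hσ r x).2.1 ((hC _ (hσ r x).1).1 hr)
    · intro hx
      rw [SimpleGraph.CliqueFree] at hx
      push Not at hx
      obtain ⟨s, hs⟩ := hx
      have hcard : W.card = s.card := by rw [hWk, hs.2]
      set f : W ≃ s := Finset.equivOfCardEq hcard with hf
      obtain ⟨r, hr⟩ := hφ3 (fun i => ((f i : s) : Fin n))
      refine ⟨r, (hC _ (hσ r x).1).2 ?_⟩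
      refine (hσ r x).2.2 (fun i => ((f i : s) : Fin n)) ?_ ?_
      · intro i j hij
        apply hs.1 (f i).2 (f j).2
        intro h
        exact hij (f.injective (Subtype.ext h))
      · rw [hT, Finset.mem_filter] at hr
        obtain ⟨-, z, hz, hz1, hz2⟩ := hr
        exact ⟨z, (hS2 z hz).1, (hS2 z hz).2, hz1, hz2⟩

end Pool.Agent.W2helper59.CU
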