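import Pool.Agent.W2helper22.CU.Stmts2

/-!
# The method of approximations for circuits without NOT gates
-/

set_option autoImplicit false

namespace Pool.Agent.W2helper59.CU

open Finset Pool.Agent.H540R2 Pool.Agent.W2helper86.KQ Pool.Agent.W2helper22.CU

section

variable {N : ℕ} {𝓛 P Q : Type} [Fintype P] [Fintype Q]

open Classical in
/-- the errors for one node -/
lemma node_abs (C : Circuit N) (xP : P → Fin N → Bool) (xQ : Q → Fin N → Bool)
    (accP : 𝓛 → P → Prop) (accQ : 𝓛 → Q → Prop) (a b : ℝ) (ha : 0 ≤ a) (hb : 0 ≤ b)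
    (hv : ∀ i : Fin N, ∃ A, ((univ.filter (fun p => xP p i = true ∧ ¬ accP A p)).card : ℝ) ≤ a ∧
      ((univ.filter (fun q => accQ A q ∧ xQ q i = false)).card : ℝ) ≤ b)
    (ht : ∃ A, ∀ p, accP A p)
    (hf : ∃ A, ((univ.filter (fun q => accQ A q)).card : ℝ) ≤ b)
    (t : ℕ) (A : ℕ → 𝓛) (EP : Finset P) (EQ : Finset Q)
    (hP : ∀ i < t, ∀ p, p ∉ EP → C.val (xP p) i = true → accP (A i) p)
    (hQ : ∀ i < t, ∀ q, q ∉ EQ → accQ (A i) q → C.val (xQ q) i = true)
    (u : Node N) (hu : ∀ j, u.wires j ≠ 0 → j < t) :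
    ∃ (B : 𝓛) (FP : Finset P) (FQ : Finset Q), (FP.card : ℝ) ≤ a ∧ (FQ.card : ℝ) ≤ b ∧
      (∀ p, p ∉ EP → p ∉ FP → u.eval (xP p) (C.val (xP p)) = true → accP B p) ∧
      (∀ q, q ∉ EQ → q ∉ FQ → accQ B q → u.eval (xQ q) (C.val (xQ q)) = true) := by
  cases u with
  | var i =>
    obtain ⟨B, h1, h2⟩ := hv i
    refine ⟨B, _, _, h1, h2, ?_, ?_⟩
    · intro p _ hp he
      by_contra hc
      exact hp (by simpa using ⟨he, hc⟩)
    · intro q _ hq he
      by_contra hc
      refine hq ?_
      simp only [Node.eval] at hc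
      simpa using ⟨he, by simpa using hc⟩
  | const c =>
    cases c with
    | true =>
      obtain ⟨B, h1⟩ := ht
      refine ⟨B, ∅, ∅, by simpa using ha, by simpa using hb, ?_, ?_⟩
      · intro p _ _ _
        exact h1 p
      · intro q _ _ _
        rfl
    | false =>
      obtain ⟨B, h1⟩ := hf
      refine ⟨B, ∅, _, by simpa using ha, h1, ?_, ?_⟩
      · intro p _ _ he
        simp [Node.eval] at he
      · intro q _ hq he
        exact absurd (by simpa using he) hq
  | gate j =>
    have hj : j < t := hu j (by simp [Node.wires])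
    refine ⟨A j, ∅, ∅, by simpa using ha, by simpa using hb, ?_, ?_⟩
    · intro p hp _ he
      exact hP j hj p hp he
    · intro q hq _ he
      exact hQ j hj q hq he

end

open Classical in
lemma card3 {P : Type} {a T : ℝ} {E F G H : Finset P} (hE : (E.card : ℝ) ≤ T)
    (hF : (F.card : ℝ) ≤ a) (hG : (G.card : ℝ) ≤ a) (hH : (H.card : ℝ) ≤ a) :
    ((E ∪ F ∪ G ∪ H).card : ℝ) ≤ T + 3 * a := by
  have h1 : ((E ∪ F ∪ G ∪ H).card : ℝ) ≤ ((E ∪ F ∪ G).card : ℝ) + H.card := by
    exact_mod_cast card_union_le _ _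
  have h2 : ((E ∪ F ∪ G).card : ℝ) ≤ ((E ∪ F).card : ℝ) + G.card := by
    exact_mod_cast card_union_le _ _
  have h3 : ((E ∪ F).card : ℝ) ≤ (E.card : ℝ) + F.card := by
    exact_mod_cast card_union_le _ _
  linarith

theorem p_abs : P_ABS := by
  classical
  intro N C hC 𝓛 P Q _ _ xP xQ accP accQ a b ha hb hv ht hf hand hor
  have key : ∀ t ≤ C.size, ∃ (A : ℕ → 𝓛) (EP : Finset P) (EQ : Finset Q),
      (EP.card : ℝ) ≤ 3 * t * a ∧ (EQ.card : ℝ) ≤ 3 * t * b ∧
      (∀ i < t, ∀ p, p ∉ EP → C.val (xP p) i = true → accP (A i) p) ∧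
      (∀ i < t, ∀ q, q ∉ EQ → accQ (A i) q → C.val (xQ q) i = true) := by
    intro t
    induction t with
    | zero =>
      intro _
      obtain ⟨B, _⟩ := ht
      exact ⟨fun _ => B, ∅, ∅, by simp, by simp, fun i hi => absurd hi (Nat.not_lt_zero _),
        fun i hi => absurd hi (Nat.not_lt_zero _)⟩
    | succ t ih =>
      intro hts
      have hts' : t < C.size := hts
      obtain ⟨A, EP, EQ, hEP, hEQ, hP, hQ⟩ := ih hts'.le
      have hn : (C.gate t).isNot = false := by
        by_contra hc
        rw [Circuit.nots, card_eq_zero, filter_eq_empty_iff] at hC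
        exact hC (mem_range.2 hts') (by simpa using hc)
      -- the claim for one gate with its two operands
      have main : ∀ u v : Node N, (∀ j, u.wires j ≠ 0 → j < t) → (∀ j, v.wires j ≠ 0 → j < t) →
          ∀ (op : Bool → Bool → Bool) (o : Prop → Prop → Prop),
          (∀ x y, op x y = true ↔ o (x = true) (y = true)) →
          (∀ p q p' q' : Prop, (p → p') → (q → q') → o p q → o p' q') →
          (∀ x, C.val x t = op (u.eval x (C.val x)) (v.eval x (C.val x))) →
          (∀ A B, ∃ D, ((univ.filter (fun p => (o (accP A p) (accP B p)) ∧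
              ¬ accP D p)).card : ℝ) ≤ a ∧
            ((univ.filter (fun q => accQ D q ∧ ¬ (o (accQ A q) (accQ B q)))).card : ℝ) ≤ b) →
          ∃ (A : ℕ → 𝓛) (EP : Finset P) (EQ : Finset Q),
          (EP.card : ℝ) ≤ 3 * (t + 1 : ℕ) * a ∧ (EQ.card : ℝ) ≤ 3 * (t + 1 : ℕ) * b ∧
          (∀ i < t + 1, ∀ p, p ∉ EP → C.val (xP p) i = true → accP (A i) p) ∧
          (∀ i < t + 1, ∀ q, q ∉ EQ → accQ (A i) q → C.val (xQ q) i = true) := by
        intro u v hu hv' op o hop hmono hval hD
        obtain ⟨Bu, FP, FQ, f1, f2, f3, f4⟩ :=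
          node_abs C xP xQ accP accQ a b ha hb hv ht hf t A EP EQ hP hQ u hu
        obtain ⟨Bv, GP, GQ, g1, g2, g3, g4⟩ :=
          node_abs C xP xQ accP accQ a b ha hb hv ht hf t A EP EQ hP hQ v hv'
        obtain ⟨D, d1, d2⟩ := hD Bu Bv
        refine ⟨Function.update A t D,
          EP ∪ FP ∪ GP ∪ univ.filter (fun p => (o (accP Bu p) (accP Bv p)) ∧ ¬ accP D p),
          EQ ∪ FQ ∪ GQ ∪ univ.filter (fun q => accQ D q ∧ ¬ (o (accQ Bu q) (accQ Bv q))),
          ?_, ?_, ?_, ?_⟩
        · refine (card3 hEP f1 g1 d1).trans ?_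
          push_cast
          linarith
        · refine (card3 hEQ f2 g2 d2).trans ?_
          push_cast
          linarith
        · intro i hi p hp he
          simp only [mem_union, not_or, mem_filter, mem_univ, true_and] at hp
          obtain ⟨⟨⟨p1, p2⟩, p3⟩, p4⟩ := hp
          by_cases hit : i = t
          · subst hit
            rw [Function.update_self]
            by_contra hc
            refine p4 ⟨?_, hc⟩
            rw [hval, hop] at he
            exact hmono _ _ _ _ (f3 p p1 p2) (g3 p p1 p3) he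
          · rw [Function.update_of_ne hit]
            exact hP i (by omega) p p1 he
        · intro i hi q hq he
          simp only [mem_union, not_or, mem_filter, mem_univ, true_and] at hq
          obtain ⟨⟨⟨p1, p2⟩, p3⟩, p4⟩ := hq
          by_cases hit : i = t
          · subst hit
            rw [Function.update_self] at he
            have h5 : o (accQ Bu q) (accQ Bv q) := by
              by_contra hc
              exact p4 ⟨he, hc⟩
            rw [hval, hop]
            exact hmono _ _ _ _ (f4 q p1 p2) (g4 q p1 p3) h5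
          · rw [Function.update_of_ne hit] at he
            exact hQ i (by omega) q p1 he
      have hlt := C.gate_lt t hts'
      have hval : ∀ x, C.val x t = (C.gate t).eval x (C.val x) := fun x => C.val_gate hts' x
      cases hg : C.gate t with
      | and u v =>
        rw [hg] at hlt
        refine main u v (fun j hj => hlt j ?_) (fun j hj => hlt j ?_) (fun x y => x && y)
          (fun p q => p ∧ q) (fun x y => by simp) (fun p q p' q' h1 h2 h => ⟨h1 h.1, h2 h.2⟩)
          (fun x => ?_)
          (fun A B => (hand A B).imp fun D h => ⟨by convert h.1, by convert h.2⟩)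
        · simp only [Gate.wires]; omega
        · simp only [Gate.wires]; omega
        · rw [hval, hg]; rfl
      | or u v =>
        rw [hg] at hlt
        refine main u v (fun j hj => hlt j ?_) (fun j hj => hlt j ?_) (fun x y => x || y)
          (fun p q => p ∨ q) (fun x y => by simp) (fun p q p' q' h1 h2 h => h.imp h1 h2)
          (fun x => ?_)
          (fun A B => (hor A B).imp fun D h => ⟨by convert h.1, by convert h.2⟩)
        · simp only [Gate.wires]; omega
        · simp only [Gate.wires]; omega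
        · rw [hval, hg]; rfl
      | not u =>
        rw [hg] at hn
        simp [Gate.isNot] at hn
  obtain ⟨A, EP, EQ, hEP, hEQ, hP, hQ⟩ := key C.size le_rfl
  obtain ⟨B, FP, FQ, f1, f2, f3, f4⟩ :=
    node_abs C xP xQ accP accQ a b ha hb hv ht hf C.size A EP EQ hP hQ C.out C.out_lt
  refine ⟨B, ?_, ?_⟩
  · have h1 : univ.filter (fun p => C.eval (xP p) = true ∧ ¬ accP B p) ⊆ EP ∪ FP := by
      intro p hp
      simp only [mem_filter, mem_univ, true_and] at hp
      by_contra hc
      rw [mem_union, not_or] at hc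
      exact hp.2 (f3 p hc.1 hc.2 hp.1)
    have h2 : ((univ.filter (fun p => C.eval (xP p) = true ∧ ¬ accP B p)).card : ℝ) ≤
        (EP.card : ℝ) + FP.card := by
      exact_mod_cast (card_le_card h1).trans (card_union_le _ _)
    linarith
  · have h1 : univ.filter (fun q => accQ B q ∧ C.eval (xQ q) = false) ⊆ EQ ∪ FQ := by
      intro q hq
      simp only [mem_filter, mem_univ, true_and] at hq
      by_contra hc
      rw [mem_union, not_or] at hc
      have h3 : C.eval (xQ q) = true := f4 q hc.1 hc.2 hq.1
      rw [hq.2] at h3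
      exact Bool.false_ne_true h3
    have h2 : ((univ.filter (fun q => accQ B q ∧ C.eval (xQ q) = false)).card : ℝ) ≤
        (EQ.card : ℝ) + FQ.card := by
      exact_mod_cast (card_le_card h1).trans (card_union_le _ _)
    linarith

end Pool.Agent.W2helper59.CU
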