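import Pool.Agent.W2helper22.CU.Stmts
import Pool.Agent.H540R2.Build

/-!
# The disjunction of substituted copies of a circuit
-/

set_option autoImplicit false

namespace Pool.Agent.W2helper59.CU

open Finset Pool.Agent.H540R2 Pool.Agent.W2helper86.KQ Pool.Agent.W2helper22.CU

section

variable {N n : ℕ}

/-- substitution in a node, with shifted gate numbers -/
def nsub (σ : Fin N → Fin n ⊕ Bool) (s : ℕ) : Node N → Node n
  | .var i => match σ i with
    | .inl v => .var v
    | .inr b => .const b
  | .const b => .const b
  | .gate j => .gate (s + j)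

/-- substitution in a gate, with shifted gate numbers -/
def gsub (σ : Fin N → Fin n ⊕ Bool) (s : ℕ) : Gate N → Gate n
  | .and a b => .and (nsub σ s a) (nsub σ s b)
  | .or a b => .or (nsub σ s a) (nsub σ s b)
  | .not a => .not (nsub σ s a)

lemma nsub_wires (σ : Fin N → Fin n ⊕ Bool) (s : ℕ) (a : Node N) (j : ℕ)
    (h : (nsub σ s a).wires j ≠ 0) : s ≤ j ∧ a.wires (j - s) ≠ 0 := by
  cases a with
  | var i =>
    exfalso
    apply h
    simp only [nsub]
    cases σ i <;> rfl
  | const b => exact absurd rfl h
  | gate i =>
    simp only [nsub, Node.wires] at h ⊢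
    have h1 : s + i = j := by
      by_contra hc
      rw [if_neg hc] at h
      exact h rfl
    subst h1
    refine ⟨by omega, ?_⟩
    rw [if_pos (by omega)]
    exact one_ne_zero

lemma gsub_wires (σ : Fin N → Fin n ⊕ Bool) (s : ℕ) (a : Gate N) (j : ℕ)
    (h : (gsub σ s a).wires j ≠ 0) : s ≤ j ∧ a.wires (j - s) ≠ 0 := by
  cases a with
  | and a b =>
    simp only [gsub, Gate.wires] at h ⊢
    by_cases h1 : (nsub σ s a).wires j = 0
    · have := nsub_wires σ s b j (by omega)
      exact ⟨this.1, by omega⟩
    · have := nsub_wires σ s a j h1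
      exact ⟨this.1, by omega⟩
  | or a b =>
    simp only [gsub, Gate.wires] at h ⊢
    by_cases h1 : (nsub σ s a).wires j = 0
    · have := nsub_wires σ s b j (by omega)
      exact ⟨this.1, by omega⟩
    · have := nsub_wires σ s a j h1
      exact ⟨this.1, by omega⟩
  | not a =>
    simp only [gsub, Gate.wires] at h ⊢
    exact nsub_wires σ s a j h

lemma nsub_eval (σ : Fin N → Fin n ⊕ Bool) (s : ℕ) (a : Node N) (x : Fin n → Bool)
    (v : ℕ → Bool) : (nsub σ s a).eval x v = a.eval (sub σ x) (fun j => v (s + j)) := by
  cases a with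
  | var i =>
    simp only [nsub, Node.eval, sub]
    cases σ i <;> rfl
  | const b => rfl
  | gate i => rfl

lemma gsub_eval (σ : Fin N → Fin n ⊕ Bool) (s : ℕ) (a : Gate N) (x : Fin n → Bool)
    (v : ℕ → Bool) : (gsub σ s a).eval x v = a.eval (sub σ x) (fun j => v (s + j)) := by
  cases a with
  | and a b => simp only [gsub, Gate.eval, nsub_eval]
  | or a b => simp only [gsub, Gate.eval, nsub_eval]
  | not a => simp only [gsub, Gate.eval, nsub_eval]

lemma gsub_isNot (σ : Fin N → Fin n ⊕ Bool) (s : ℕ) (a : Gate N) :
    (gsub σ s a).isNot = a.isNot := by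
  cases a <;> rfl

/-- the circuit `P` followed by a substituted copy of `C` -/
def app (P : Circuit n) (C : Circuit N) (σ : Fin N → Fin n ⊕ Bool) : Circuit n where
  size := P.size + C.size
  gate := fun i => if i < P.size then P.gate i else gsub σ P.size (C.gate (i - P.size))
  out := nsub σ P.size C.out
  gate_lt i hi j hj := by
    by_cases h : i < P.size
    · simp only [if_pos h] at hj
      exact P.gate_lt i h j hj
    · simp only [if_neg h] at hj
      obtain ⟨h1, h2⟩ := gsub_wires σ P.size _ j hj
      have := C.gate_lt (i - P.size) (by omega) _ h2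
      omega
  out_lt j hj := by
    obtain ⟨h1, h2⟩ := nsub_wires σ P.size _ j hj
    have := C.out_lt _ h2
    omega

lemma app_ext (P : Circuit n) (C : Circuit N) (σ : Fin N → Fin n ⊕ Bool) :
    Circuit.Ext P (app P C σ) :=
  ⟨Nat.le_add_right _ _, fun _ hi => if_pos hi⟩

lemma app_val (P : Circuit n) (C : Circuit N) (σ : Fin N → Fin n ⊕ Bool) (x : Fin n → Bool) :
    ∀ i < C.size, (app P C σ).val x (P.size + i) = C.val (sub σ x) i := by
  intro i
  induction i using Nat.strong_induction_on with
  | _ i ih =>
    intro hi
    rw [(app P C σ).val_gate (show P.size + i < P.size + C.size by omega), C.val_gate hi]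
    have h1 : (app P C σ).gate (P.size + i) = gsub σ P.size (C.gate i) := by
      show (if P.size + i < P.size then P.gate (P.size + i) else
        gsub σ P.size (C.gate (P.size + i - P.size))) = _
      rw [if_neg (by omega), Nat.add_sub_cancel_left]
    rw [h1, gsub_eval]
    apply Gate.eval_congr
    intro j hj
    have := C.gate_lt i hi j hj
    exact ih j this (this.trans hi)

lemma app_eval (P : Circuit n) (C : Circuit N) (σ : Fin N → Fin n ⊕ Bool) (x : Fin n → Bool) :
    (app P C σ).eval x = C.eval (sub σ x) := by
  show (nsub σ P.size C.out).eval x ((app P C σ).val x) = C.out.eval (sub σ x) (C.val (sub σ x))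
  rw [nsub_eval]
  apply Node.eval_congr
  intro j hj
  exact app_val P C σ x j (C.out_lt j hj)

lemma nots_eq (P : Circuit n) :
    P.nots = ∑ i ∈ range P.size, if (P.gate i).isNot = true then 1 else 0 := by
  rw [Circuit.nots, card_filter]

lemma app_nots (P : Circuit n) (C : Circuit N) (σ : Fin N → Fin n ⊕ Bool) :
    (app P C σ).nots = P.nots + C.nots := by
  rw [nots_eq, nots_eq, nots_eq]
  have h : (app P C σ).size = P.size + C.size := rfl
  rw [h, sum_range_add]
  congr 1
  · apply sum_congr rfl
    intro i hi
    rw [(app_ext P C σ).2 i (mem_range.1 hi)]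
  · apply sum_congr rfl
    intro i _
    have h1 : (app P C σ).gate (P.size + i) = gsub σ P.size (C.gate i) := by
      show (if P.size + i < P.size then P.gate (P.size + i) else
        gsub σ P.size (C.gate (P.size + i - P.size))) = _
      rw [if_neg (by omega), Nat.add_sub_cancel_left]
    rw [h1, gsub_isNot]

lemma add_nots (P : Circuit n) (g : Gate n) (hg : ∀ j, g.wires j ≠ 0 → j < P.size)
    (hn : g.isNot = false) : (P.add g hg).nots = P.nots := by
  rw [nots_eq, nots_eq]
  have h : (P.add g hg).size = P.size + 1 := rfl
  rw [h, sum_range_succ]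
  have h2 : (P.add g hg).gate P.size = g := Function.update_self _ _ _
  rw [h2, hn]
  simp only [Bool.false_eq_true, if_false, add_zero]
  apply sum_congr rfl
  intro i hi
  rw [(P.add_ext g hg).2 i (mem_range.1 hi)]

end

theorem p_ors : P_ORS := by
  intro N n m C
  induction m with
  | zero =>
    intro σ
    refine ⟨Circuit.empty n, Nat.zero_le _, Nat.zero_le _, fun x => ?_⟩
    constructor
    · intro h
      exact absurd (show false = true from h) Bool.false_ne_true
    · rintro ⟨r, _⟩
      exact r.elim0
  | succ m ih =>
    intro σ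
    obtain ⟨P, hP1, hP2, hP3⟩ := ih (fun r => σ r.castSucc)
    have he := app_ext P C (σ (Fin.last m))
    have hg : ∀ j, (Gate.or P.out (app P C (σ (Fin.last m))).out).wires j ≠ 0 →
        j < (app P C (σ (Fin.last m))).size := by
      intro j hj
      simp only [Gate.wires] at hj
      by_cases h : P.out.wires j = 0
      · exact (app P C (σ (Fin.last m))).out_lt j (by omega)
      · exact lt_of_lt_of_le (P.out_lt j h) he.1
    refine ⟨(app P C (σ (Fin.last m))).add _ hg, ?_, ?_, fun x => ?_⟩
    · show P.size + C.size + 1 ≤ _
      have : (m + 1) * (C.size + 1) = m * (C.size + 1) + C.size + 1 := by ring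
      omega
    · rw [add_nots _ _ _ rfl, app_nots]
      have : (m + 1) * C.nots = m * C.nots + C.nots := by ring
      omega
    · rw [Circuit.add_eval]
      simp only [Gate.eval, Bool.or_eq_true]
      rw [he.node_eval x P.out_lt]
      have h1 : P.out.eval x (P.val x) = P.eval x := rfl
      have h2 : (app P C (σ (Fin.last m))).out.eval x ((app P C (σ (Fin.last m))).val x) =
        (app P C (σ (Fin.last m))).eval x := rfl
      rw [h1, h2, app_eval, hP3]
      constructor
      · rintro (⟨r, h⟩ | h)
        · exact ⟨r.castSucc, h⟩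
        · exact ⟨Fin.last m, h⟩
      · rintro ⟨r, h⟩
        induction r using Fin.lastCases with
        | last => exact Or.inr h
        | cast r => exact Or.inl ⟨r, h⟩

end Pool.Agent.W2helper59.CU
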